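import Pool.Agent.Helper43.QP.ExtQuot
import Pool.Agent.Helper43.QL.Final
import Pool.Agent.Helper43.QA.Araya

set_option autoImplicit false
set_option linter.unusedSectionVars false

/-!
# QP-2: the steps of the class of pairs
-/

open Pool.Agent.Helper35.ARC2 Pool.Agent.Helper35.AR CategoryTheory Abelian
  RingTheory.Sequence TensorProduct

namespace Pool.Agent.Helper43.QH

/-- The two vanishing conditions. -/
def Van (R : Type) [CommRing R] [HasExt.{0} (ModuleCat.{0} R)] (M : Type) [AddCommGroup M]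
    [Module R M] : Prop :=
  (∀ i : ℕ, 0 < i → Subsingleton (Ext (ModuleCat.of R M) (ModuleCat.of R R) i)) ∧
  (∀ i : ℕ, 0 < i → Subsingleton (Ext (ModuleCat.of R M) (ModuleCat.of R M) i))

section localization

variable {R : Type} [CommRing R] [IsNoetherianRing R] [IsLocalRing R]
  [HasExt.{0} (ModuleCat.{0} R)]

theorem van_tensor {S : Type} [CommRing S] [HasExt.{0} (ModuleCat.{0} S)] [Algebra R S]
    [Module.Flat R S] {M : Type} [AddCommGroup M] [Module R M] [Module.Finite R M]
    (h : Van R M) : Van S (S ⊗[R] M) :=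
  ⟨ext_baseChange_ring M h.1, ext_baseChange M M h.2⟩

theorem van_congr {S : Type} [CommRing S] [HasExt.{0} (ModuleCat.{0} S)] {M M' : Type}
    [AddCommGroup M] [Module S M] [AddCommGroup M'] [Module S M'] (e : M ≃ₗ[S] M')
    (h : Van S M) : Van S M' :=
  ext_of_isSyz (R := S) (N := M') 0 M ⟨e⟩ h.1 h.2

theorem van_localized {M : Type} [AddCommGroup M] [Module R M] [Module.Finite R M]
    (h : Van R M) (p : Ideal R) [p.IsPrime] [HasExt.{0} (ModuleCat.{0} (Localization p.primeCompl))] :
    Van (Localization p.primeCompl) (LocalizedModule p.primeCompl M) := by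
  have : Module.Flat R (Localization p.primeCompl) := IsLocalization.flat _ p.primeCompl
  exact van_congr (LocalizedModule.equivTensorProduct p.primeCompl M).symm (van_tensor h)

end localization

section freeAt

variable {R : Type} [CommRing R]

/-- A multiple `s • id` with `s ∉ p` is in the image of `M^* ⊗ M`. -/
def FreeAt (R M : Type) [CommRing R] [AddCommGroup M] [Module R M] (p : Ideal R) : Prop :=
  ∃ s ∉ p, ∃ w : XX R M, phi R M w = s • LinearMap.id

variable {M : Type} [AddCommGroup M] [Module R M] {p : Ideal R}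

theorem freeAt_ker (h : FreeAt R M p) {m : ℕ} (π : (Fin m → R) →ₗ[R] M)
    (hπ : Function.Surjective π) : FreeAt R (LinearMap.ker π) p := by
  obtain ⟨s, hs, w, hw⟩ := h
  obtain ⟨a, f, n, rfl⟩ := exists_sum_tm w
  have hw' : ∀ x : M, ∑ i, f i x • n i = s • x := by
    intro x
    have h := congrArg (fun g : M →ₗ[R] M => g x) hw
    simpa only [map_sum, LinearMap.sum_apply, phi_tm, LinearMap.smul_apply,
      LinearMap.id_apply] using h
  choose u hu using fun i => hπ (n i)
  let τ₀ : (Fin m → R) →ₗ[R] (Fin m → R) :=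
    s • LinearMap.id - ∑ i, ((f i).comp π).smulRight (u i)
  have hτ₀ : ∀ v, τ₀ v = s • v - ∑ i, f i (π v) • u i := by
    intro v
    simp [τ₀, LinearMap.sum_apply]
  have hk : ∀ v, τ₀ v ∈ LinearMap.ker π := by
    intro v
    rw [LinearMap.mem_ker, hτ₀, map_sub, map_smul, map_sum,
      Finset.sum_congr rfl (fun i _ => by rw [map_smul, hu i]), hw' (π v), sub_self]
  let τ : (Fin m → R) →ₗ[R] LinearMap.ker π := τ₀.codRestrict (LinearMap.ker π) hk
  refine ⟨s, hs, ∑ j, tm ((LinearMap.proj j).comp (LinearMap.ker π).subtype)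
    (τ (Pi.single j 1)), ?_⟩
  ext x : 1
  rw [map_sum, LinearMap.sum_apply, LinearMap.smul_apply, LinearMap.id_apply,
    Finset.sum_congr rfl (fun j _ => phi_tm _ _ _)]
  have h1 : ∑ j, ((LinearMap.proj j : (Fin m → R) →ₗ[R] R).comp (LinearMap.ker π).subtype) x •
      τ (Pi.single j 1) = τ (x : Fin m → R) := by
    have h2 : (x : Fin m → R) = ∑ j, (x : Fin m → R) j • Pi.single j (1 : R) := by
      ext l
      simp [Finset.sum_apply, Pi.single_apply]
    conv_rhs => rw [h2]
    rw [map_sum]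
    exact Finset.sum_congr rfl fun j _ => by rw [map_smul]; rfl
  rw [h1]
  apply Subtype.ext
  change τ₀ (x : Fin m → R) = s • (x : Fin m → R)
  have h3 : π (x : Fin m → R) = 0 := x.2
  rw [hτ₀, h3]
  simp

theorem freeAt_congr {M' : Type} [AddCommGroup M'] [Module R M'] (e : M ≃ₗ[R] M')
    (h : FreeAt R M p) : FreeAt R M' p := by
  obtain ⟨s, hs, w, hw⟩ := h
  obtain ⟨a, f, n, rfl⟩ := exists_sum_tm w
  have hw' : ∀ x : M, ∑ i, f i x • n i = s • x := by
    intro x
    have h := congrArg (fun g : M →ₗ[R] M => g x) hw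
    simpa only [map_sum, LinearMap.sum_apply, phi_tm, LinearMap.smul_apply,
      LinearMap.id_apply] using h
  refine ⟨s, hs, ∑ i, tm ((f i).comp e.symm.toLinearMap) (e (n i)), ?_⟩
  ext x : 1
  rw [map_sum, LinearMap.sum_apply, LinearMap.smul_apply, LinearMap.id_apply,
    Finset.sum_congr rfl (fun j _ => phi_tm _ _ _)]
  have h1 := congrArg e (hw' (e.symm x))
  rw [map_sum, map_smul, LinearEquiv.apply_symm_apply] at h1
  rw [← h1]
  exact Finset.sum_congr rfl fun i _ => by rw [map_smul]; rfl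

theorem freeAt_of_isSyz {N : Type} [AddCommGroup N] [Module R N] (n : ℕ) :
    ∀ (M : Type) [AddCommGroup M] [Module R M], IsSyz R N n M → FreeAt R M p → FreeAt R N p := by
  induction n with
  | zero =>
    intro M _ _ h hM
    obtain ⟨e⟩ := h
    exact freeAt_congr e hM
  | succ n ih =>
    intro M _ _ h hM
    obtain ⟨m, π, hπ, h3⟩ := h
    exact ih _ h3 (freeAt_ker hM π hπ)

/-- A syzygy of positive order embeds into a finite free module. -/
theorem exists_embedding {N : Type} [AddCommGroup N] [Module R N] (n : ℕ) :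
    ∀ (M : Type) [AddCommGroup M] [Module R M], IsSyz R N (n + 1) M →
      ∃ (m : ℕ) (j : N →ₗ[R] (Fin m → R)), Function.Injective j := by
  induction n with
  | zero =>
    intro M _ _ h
    obtain ⟨m, π, hπ, e⟩ := h
    obtain ⟨e⟩ := e
    exact ⟨m, (LinearMap.ker π).subtype.comp e.symm.toLinearMap,
      (Submodule.injective_subtype _).comp e.symm.injective⟩
  | succ n ih =>
    intro M _ _ h
    obtain ⟨m, π, hπ, h3⟩ := h
    exact ih _ h3

end freeAt

section steps

variable {R : Type} [CommRing R] [IsNoetherianRing R] [IsLocalRing R]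
  [HasExt.{0} (ModuleCat.{0} R)]

/-- The step to Gorenstein rings, modules. -/
theorem araya_main (xs : List R) (hreg : IsRegular R xs) (hI : IsGorIdeal (Ideal.ofList xs))
    (M : Type) [AddCommGroup M] [Module R M] [Module.Finite R M] (hM : Van R M)
    (hgen : ∀ (p : Ideal R) [p.IsPrime], (∀ x ∈ p, ∀ y ∈ p, ¬ IsWeaklyRegular R [x, y]) →
      FreeAt R M p) : Module.Free R M := by
  have hxm : ∀ x ∈ xs, x ∈ IsLocalRing.maximalIdeal R := by
    intro x hx'
    have h1 : Ideal.ofList xs ≠ ⊤ := by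
      intro h
      apply hreg.top_ne_smul
      rw [h, smul_eq_mul, Ideal.top_mul]
    exact IsLocalRing.le_maximalIdeal h1 (Ideal.subset_span hx')
  have hregR : IsWeaklyRegular R xs := hreg.toIsWeaklyRegular
  obtain ⟨N, _, _, hN⟩ := exists_isSyz (R := R) (xs.length + 1) M
  have hNfin : Module.Finite R N := finite_of_isSyz _ M hN
  obtain ⟨hNR, hNN⟩ := ext_of_isSyz _ M hN hM.1 hM.2
  have hregN := weaklyRegular_of_isSyz hregR (xs.length + 1) (Nat.le_succ _) N M hN
  obtain ⟨m, j, hj⟩ := exists_embedding _ M hN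
  have htor : ∀ x : R, IsSMulRegular R x → IsSMulRegular N x := by
    intro x hx a b hab
    apply hj
    funext i
    apply hx
    have h1 := congrFun (congrArg j hab) i
    simpa using h1
  have hp : Module.Projective R N := araya_core xs hxm hregR hI N hregN htor hNR hNN
    (fun p _ hp => freeAt_of_isSyz _ M hN (hgen p hp))
  have hMp : Module.Projective R M := projective_of_isSyz hp _ M hN hM.1
  exact Module.free_of_flat_of_isLocalRing

omit [IsNoetherianRing R] [IsLocalRing R] [HasExt.{0} (ModuleCat.{0} R)] in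
theorem isQ_span (x : R) : IsQ R (R ⧸ Ideal.span {x}) x where
  surj := Ideal.Quotient.mk_surjective
  ker a := by
    rw [Ideal.Quotient.algebraMap_eq, Ideal.Quotient.eq_zero_iff_mem,
      Ideal.mem_span_singleton']
    exact ⟨fun ⟨b, hb⟩ => ⟨b, by rw [← hb, mul_comm]⟩, fun ⟨b, hb⟩ => ⟨b, by rw [hb, mul_comm]⟩⟩

omit [IsNoetherianRing R] [IsLocalRing R] [HasExt.{0} (ModuleCat.{0} R)] in
theorem isM_ring {S : Type} [CommRing S] [Algebra R S] {x : R} (hQ : IsQ R S x)
    (hx : x ∈ nonZeroDivisors R) : IsM R x (Algebra.linearMap R S) := by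
  refine ⟨hQ.surj, fun a => ?_, fun a ha => ?_⟩
  · exact hQ.ker a
  · rw [smul_eq_mul, mul_comm] at ha
    exact (mem_nonZeroDivisors_iff_right.1 hx) a ha

omit [IsNoetherianRing R] [IsLocalRing R] [HasExt.{0} (ModuleCat.{0} R)] in
theorem isM_mkQ {x : R} {N : Type} [AddCommGroup N] [Module R N] (hxN : ∀ a : N, x • a = 0 → a = 0) :
    IsM R x (Submodule.mkQ (Ideal.span {x} • ⊤ : Submodule R N)) := by
  refine ⟨Submodule.mkQ_surjective _, fun a => ?_, hxN⟩
  rw [Submodule.mkQ_apply, Submodule.Quotient.mk_eq_zero, Submodule.ideal_span_singleton_smul,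
    Submodule.mem_smul_pointwise_iff_exists]
  exact ⟨fun ⟨b, _, hb⟩ => ⟨b, hb.symm⟩, fun ⟨b, hb⟩ => ⟨b, trivial, hb.symm⟩⟩

/-- The step from `R / x` to `R`. -/
theorem lift_step (x : R) (hxm : x ∈ IsLocalRing.maximalIdeal R) (hx : x ∈ nonZeroDivisors R)
    (M : Type) [AddCommGroup M] [Module R M] [Module.Finite R M] (hM : Van R M) (n : ℕ) (N : Type)
    [AddCommGroup N] [Module R N] (hN : IsSyz R N n M) (hxN : ∀ a : N, x • a = 0 → a = 0)
    (h : ∀ [HasExt.{0} (ModuleCat.{0} (R ⧸ Ideal.span {x}))]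
      [Module.Finite (R ⧸ Ideal.span {x}) (N ⧸ (Ideal.span {x} • ⊤ : Submodule R N))],
      Van (R ⧸ Ideal.span {x}) (N ⧸ (Ideal.span {x} • ⊤ : Submodule R N)) →
      Module.Free (R ⧸ Ideal.span {x}) (N ⧸ (Ideal.span {x} • ⊤ : Submodule R N))) :
    Module.Free R M := by
  have hNfin : Module.Finite R N := finite_of_isSyz _ M hN
  obtain ⟨hNR, hNN⟩ := ext_of_isSyz _ M hN hM.1 hM.2
  have hQ := isQ_span (R := R) x
  have hf := isM_mkQ (R := R) (N := N) hxN
  have hg := isM_ring hQ hx
  have e1 := ext_descent (L := N) hQ hx hf hg hNR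
  have e2 := ext_descent (L := N) hQ hx hf hf hNN
  have : Module.Finite (R ⧸ Ideal.span {x}) (N ⧸ (Ideal.span {x} • ⊤ : Submodule R N)) :=
    Module.Finite.of_restrictScalars_finite R _ _
  have hfree := h ⟨e1, e2⟩
  have hNf : Module.Free R N := free_of_isM_conv hQ hxm hf hfree
  have hNp : Module.Projective R N := Module.Projective.of_free
  have hMp : Module.Projective R M := projective_of_isSyz hNp _ M hN hM.1
  exact Module.free_of_flat_of_isLocalRing

/-- The step from a complete ring `Q` to `Q / y`. -/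
theorem quotient_step {Q : Type} [CommRing Q] [IsNoetherianRing Q] [IsLocalRing Q]
    [IsAdicComplete (IsLocalRing.maximalIdeal Q) Q] (y : Q) (hy : y ∈ nonZeroDivisors Q)
    (hym : y ∈ IsLocalRing.maximalIdeal Q) (M : Type) [AddCommGroup M]
    [Module (Q ⧸ Ideal.span {y}) M] [Module Q M] [IsScalarTower Q (Q ⧸ Ideal.span {y}) M]
    [Module.Finite (Q ⧸ Ideal.span {y}) M] [HasExt.{0} (ModuleCat.{0} (Q ⧸ Ideal.span {y}))]
    (hM : Van (Q ⧸ Ideal.span {y}) M)
    (h : ∀ (L : Type) [AddCommGroup L] [Module Q L] (f : L →ₗ[Q] M), IsM Q y f →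
      ∀ [HasExt.{0} (ModuleCat.{0} Q)] [Module.Finite Q L], Van Q L → Module.Free Q L) :
    Module.Free (Q ⧸ Ideal.span {y}) M := by
  have hQ := isQ_span (R := Q) y
  have hNT : Nontrivial (Q ⧸ Ideal.span {y}) := by
    rw [Ideal.Quotient.nontrivial_iff]
    intro h1
    apply (IsLocalRing.maximalIdeal.isMaximal Q).ne_top
    rw [eq_top_iff, ← h1, Ideal.span_singleton_le_iff_mem]
    exact hym
  have hLR : IsLocalRing (Q ⧸ Ideal.span {y}) :=
    IsLocalRing.of_surjective' (algebraMap Q (Q ⧸ Ideal.span {y})) hQ.surj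
  obtain ⟨L, _, _, f, hfin, hf⟩ := exists_liftMod (Q := Q) (R := Q ⧸ Ideal.span {y}) hQ hy hym M
    hM.2
  have hg := isM_ring hQ hy
  have e1 := ext_ascent (L := L) (M := M) hQ hy hym hf hg hM.1
  have e2 := ext_ascent (L := L) (M := M) hQ hy hym hf hf hM.2
  exact free_of_isM hQ hf (h L f hf ⟨e1, e2⟩)

/-- The step along a flat local homomorphism. -/
theorem flat_step {S : Type} [CommRing S] [IsLocalRing S] [Algebra R S] [Module.Flat R S]
    [IsLocalHom (algebraMap R S)] (M : Type) [AddCommGroup M] [Module R M] [Module.Finite R M]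
    (hM : Van R M)
    (h : ∀ [HasExt.{0} (ModuleCat.{0} S)] [Module.Finite S (S ⊗[R] M)],
      Van S (S ⊗[R] M) → Module.Free S (S ⊗[R] M)) : Module.Free R M := by
  have : Module.Finite S (S ⊗[R] M) := Module.Finite.base_change R S M
  have : Module.Free S (S ⊗[R] M) := h (van_tensor hM)
  have : Module.FaithfullyFlat R S := Module.FaithfullyFlat.of_flat_of_isLocalHom
  have : Module.Flat R M := Module.Flat.of_flat_tensorProduct R M S
  exact Module.free_of_flat_of_isLocalRing

end steps

end Pool.Agent.Helper43.QH
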