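import Pool.Agent.Helper43.QL.ExtAsc

set_option autoImplicit false
set_option linter.unusedSectionVars false

/-!
# QP-1: descent of the vanishing of Ext from `Q` to `R = Q / y`, modules

`IsQ Q R y` says that `R` is the quotient of `Q` by `y`, `IsM Q y f` that `f : L → M` is surjective
with kernel `y L` and `y` is regular on `L` (`Pool/Agent/Helper43/QL/Quot.lean`).
-/

open Pool.Agent.Helper35.ARC2 CategoryTheory Abelian

namespace Pool.Agent.Helper43.QH

section

variable {Q R : Type} [CommRing Q] [CommRing R] [Algebra Q R] {y : Q}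
variable {L M : Type} [AddCommGroup L] [Module Q L] [AddCommGroup M] [Module R M] [Module Q M]
  [IsScalarTower Q R M] {f : L →ₗ[Q] M}

/-- Proof. Take a resolution `D` of `L` over `Q` (`exists_res_module`); its reduction is a
resolution of `M` over `R` (`resolution_quot`). `exact_of_ext` gives the exactness of the complex of
the transposed matrices with coefficients `Y`; the exact sequence `0 → Y → Y → X → 0` (`SES`,
`SES.ex_right`, multiplication by `y` and `g`) gives the exactness with coefficients `X`;
`ex_map` and `ext_of_exact`. -/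
theorem ext_descent [IsNoetherianRing Q] [IsLocalRing Q] [HasExt.{0} (ModuleCat.{0} Q)]
    [HasExt.{0} (ModuleCat.{0} R)]
    (hQ : IsQ Q R y) (hy : y ∈ nonZeroDivisors Q)
    [Module.Finite Q L] (hf : IsM Q y f)
    {Y X : Type} [AddCommGroup Y] [Module Q Y] [AddCommGroup X] [Module R X] [Module Q X]
    [IsScalarTower Q R X] {g : Y →ₗ[Q] X} (hg : IsM Q y g)
    (h : ∀ i : ℕ, 0 < i → Subsingleton (Ext (ModuleCat.of Q L) (ModuleCat.of Q Y) i)) :
    ∀ i : ℕ, 0 < i → Subsingleton (Ext (ModuleCat.of R M) (ModuleCat.of R X) i) := by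
  obtain ⟨n, D, π, hπ, h0, hD⟩ := exists_res_module (R := Q) L
  obtain ⟨π', hπ', h0', hD'⟩ := resolution_quot (R := R) (M := M) hQ hy hf hπ.1 h0 hD
  have hX := exact_of_ext hπ.1 h0 hD h
  have hDD : ∀ i, D i * D (i + 1) = 0 := fun i => matrix_mul_eq_zero fun u => by
    have h1 : act Q (D (i + 1)) u ∈ LinearMap.ker (act Q (D i)) := by
      rw [← hD i]
      exact ⟨u, rfl⟩
    exact h1
  let m : Y →ₗ[Q] Y := y • LinearMap.id
  have hm : ∀ a, m a = y • a := fun a => rfl
  have hS : SES m g := by
    refine ⟨?_, hg.surj, ?_⟩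
    · rw [← LinearMap.ker_eq_bot, LinearMap.ker_eq_bot']
      intro a ha
      exact hg.reg a (by rw [← hm]; exact ha)
    · intro a
      rw [hg.ker]
      constructor
      · rintro ⟨b, hb⟩
        exact ⟨b, by rw [hm, hb]⟩
      · rintro ⟨b, hb⟩
        exact ⟨b, by rw [← hb, hm]⟩
  refine ext_of_exact (d := fun i => (D i).map (algebraMap Q R)) hπ' h0' hD' fun i => ?_
  have h1 : Ex (R := Q) X (D (i + 1)).transpose (D i).transpose :=
    hS.ex_right (by rw [← Matrix.transpose_mul, hDD, Matrix.transpose_zero]) (hX (i + 1)) (hX i)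
  rw [← ex_map (S := R)] at h1
  exact h1

/-- Proof. Lift a basis of `M` to `L`; this gives `θ : (Fin n → Q) → L`, surjective by the lemma of
Nakayama (`y ∈ m`). If `θ v = 0` then `v` is zero in `Fin n → R`, so `v = y w`, `y θ w = 0`,
`θ w = 0`: `ker θ = y ker θ`, so `ker θ = 0` by the lemma of Nakayama. -/
theorem free_of_isM_conv [IsNoetherianRing Q] [IsLocalRing Q]
    (hQ : IsQ Q R y) (hym : y ∈ IsLocalRing.maximalIdeal Q)
    [Module.Finite Q L] (hf : IsM Q y f) (hM : Module.Free R M) : Module.Free Q L := by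
  have hnt : Nontrivial R := by
    refine nontrivial_of_ne (1 : R) 0 fun h1 => ?_
    rw [← map_one (algebraMap Q R), hQ.ker] at h1
    obtain ⟨b, hb⟩ := h1
    have h2 : IsUnit y := IsUnit.of_mul_eq_one b hb.symm
    rw [IsLocalRing.mem_maximalIdeal, mem_nonunits_iff] at hym
    exact hym h2
  have hfin : Module.Finite Q M := Module.Finite.of_surjective f hf.surj
  have hfin' : Module.Finite R M := Module.Finite.of_restrictScalars_finite Q R M
  let b := Module.finBasis R M
  choose l hl using fun i => hf.surj (b i)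
  let θ : (Fin (Module.finrank R M) → Q) →ₗ[Q] L := Fintype.linearCombination Q l
  have hθ : ∀ v, θ v = ∑ i, v i • l i := fun v => Fintype.linearCombination_apply Q l v
  have hfθ : ∀ v, f (θ v) = ∑ i, algebraMap Q R (v i) • b i := by
    intro v
    rw [hθ, map_sum]
    refine Finset.sum_congr rfl fun i _ => ?_
    rw [map_smul, hl, algebraMap_smul]
  have hjac : IsLocalRing.maximalIdeal Q ≤ (⊥ : Ideal Q).jacobson :=
    IsLocalRing.maximalIdeal_le_jacobson _
  have hsurj : Function.Surjective θ := by
    rw [← LinearMap.range_eq_top, eq_top_iff]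
    refine Submodule.le_of_le_smul_of_le_jacobson_bot (I := IsLocalRing.maximalIdeal Q)
      (Module.Finite.fg_top) hjac ?_
    intro x _
    choose q hq using fun i => hQ.surj (b.repr (f x) i)
    have h1 : f (x - θ q) = 0 := by
      rw [map_sub, hfθ, sub_eq_zero]
      conv_lhs => rw [← b.sum_repr (f x)]
      refine Finset.sum_congr rfl fun i _ => ?_
      rw [hq]
    obtain ⟨z, hz⟩ := (hf.ker _).1 h1
    have h2 : x = θ q + y • z := by rw [← hz]; abel
    rw [h2]
    exact Submodule.add_mem_sup ⟨q, rfl⟩ (Submodule.smul_mem_smul hym Submodule.mem_top)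
  have hinj : LinearMap.ker θ = ⊥ := by
    refine Submodule.eq_bot_of_le_smul_of_le_jacobson_bot (IsLocalRing.maximalIdeal Q) _
      (IsNoetherian.noetherian _) ?_ hjac
    intro v hv
    have hv0 : θ v = 0 := hv
    have h1 : ∑ i, algebraMap Q R (v i) • b i = 0 := by rw [← hfθ, hv0, map_zero]
    have h2 := Fintype.linearIndependent_iff.1 b.linearIndependent _ h1
    choose w hw using fun i => (hQ.ker (v i)).1 (h2 i)
    have h3 : v = y • w := funext fun i => by
      rw [Pi.smul_apply, smul_eq_mul]
      exact hw i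
    have h4 : θ w = 0 := hf.reg _ (by rw [← map_smul, ← h3, hv0])
    rw [h3]
    exact Submodule.smul_mem_smul hym h4
  exact Module.Free.of_equiv (LinearEquiv.ofBijective θ ⟨LinearMap.ker_eq_bot.1 hinj, hsurj⟩)

end

end Pool.Agent.Helper43.QH
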